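import Pool.Agent.MP_8be872_ag.H26.GlobA

/-! The gauge action on the global dg algebra: weights, polynomials. -/

namespace Pool.Agent.MP_8be872_ag.H26

open Finset H38 H56 H63 MvPolynomial
open scoped Matrix

variable {Q : Quiv} {w v D : Fin Q.n → ℕ} {J : Type}
  {R R' : Nb Q w v D → Nb Q w v D → Prop} {a b : Nb Q w v D}

/-- The weight of a kind. -/
noncomputable def kw : Kd Q → G
  | .inl (.inl ε) => arrWt Q ε
  | .inl (.inr true) => -qq
  | .inl (.inr false) => -hb - qq
  | .inr (.inl ε) => arrWt Q ε - qq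
  | .inr (.inr true) => 0
  | .inr (.inr false) => -hb

theorem wt_gg (x : Nb Q w v D → G) (φ : J → G) (k : Kd Q) (p q : Nb Q w v D) :
    wt x φ (gg k p q) = x q - x p - kw k := by
  rcases k with (ε | _ | _) | (ε | _ | _) <;> rfl

theorem co_kw (n : ℕ) (k : Kd Q) : co (3 * n + 4) (kw k) = 0 := by
  have h0 : co (3 * n + 4) qq = 0 := by rw [qq, co_gen, if_neg (by omega)]
  have h1 : co (3 * n + 4) tau = 0 := by rw [tau, co_gen, if_neg (by omega)]
  have h2 : ∀ e, co (3 * n + 4) (tE e) = 0 := fun e => by rw [tE, co_gen, if_neg (by omega)]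
  rcases k with (⟨_ | e, _ | _⟩ | _ | _) | (⟨_ | e, _ | _⟩ | _ | _) <;>
    simp [kw, arrWt, hb, h0, h1, h2]

theorem xi_kw (a : Nb Q w v D) (k : Kd Q) : xi a (kw k) = 0 := by
  rcases a with a | a | a
  exacts [co_kw _ k, co_kw _ k, rfl]

theorem co_xV (i j i' j' : ℕ) :
    co (3 * Nat.pair i j + 4) (xV i' j') = if i' = i ∧ j' = j then 1 else 0 := by
  rw [xV, co_gen]
  refine if_congr ?_ rfl rfl
  rw [← Nat.pair_eq_pair]
  omega

theorem ite_sub {M : Type} [AddCommGroup M] [Module ℂ M] {P P' : Prop} [Decidable P] [Decidable P']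
    {x y z : M} (h : P → x = z) (h' : P' → y = z) : (if P then x else 0) - (if P' then y else 0) =
      ((if P then 1 else 0 : ℂ) - if P' then 1 else 0) • z := by
  split_ifs with h1 h2 h2 <;> simp [h, h', h1, h2]

theorem xi_bw (ha : blk a < 2) (q : Nb Q w v D) : xi a (bw q) = if q = a then 1 else 0 := by
  have hu : ∀ n i j, co (3 * n + 4) (uF i j) = 0 := fun n i j => by
    rw [uF, co_gen, if_neg (by omega)]
  rcases a with ⟨i, j⟩ | ⟨i, j⟩ | a
  · rcases q with ⟨i', j'⟩ | ⟨i', j'⟩ | q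
    · refine (co_xV _ _ _ _).trans (if_congr ⟨fun h => ?_, fun h => ?_⟩ rfl rfl)
      · obtain rfl : i' = i := Fin.ext h.1
        obtain rfl : j' = j := Fin.ext (Nat.add_left_cancel h.2)
        rfl
      · cases h
        exact ⟨rfl, rfl⟩
    · refine (co_xV _ _ _ _).trans ((if_neg fun h => ?_).trans (if_neg (by simp)).symm)
      obtain rfl : i' = i := Fin.ext h.1
      have h1 := j'.2
      have h2 := h.2
      simp only at h2
      omega
    · exact (hu _ _ _).trans (if_neg (by simp)).symm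
  · rcases q with ⟨i', j'⟩ | ⟨i', j'⟩ | q
    · refine (co_xV _ _ _ _).trans ((if_neg fun h => ?_).trans (if_neg (by simp)).symm)
      obtain rfl : i' = i := Fin.ext h.1
      have h1 := j.2
      have h2 := h.2
      simp only at h2
      omega
    · refine (co_xV _ _ _ _).trans (if_congr ⟨fun h => ?_, fun h => ?_⟩ rfl rfl)
      · obtain rfl : i' = i := Fin.ext h.1
        obtain rfl : j' = j := Fin.ext h.2
        rfl
      · cases h
        exact ⟨rfl, rfl⟩
    · exact (hu _ _ _).trans (if_neg (by simp)).symm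
  · simp [blk] at ha

theorem e0_cases {g : Ix Q w v D J ⊕ Ix Q w v D J} (h : E0G g) :
    ∃ k p q, g = gg k p q ∧ shape rad k p q ∧ ((∃ ε, k = kx ε) ∨ k = ka) := by
  rcases gen_cases g with ⟨k, p, q, rfl⟩ | ⟨j, rfl⟩ | ⟨j, rfl⟩
  · obtain ⟨h1, h2⟩ := h
    rw [AlG, ofM_gg] at h1
    rw [kind, ofM_gg] at h2
    refine ⟨k, p, q, rfl, h1, ?_⟩
    rcases k with (ε | _ | _) | (ε | _ | _) <;> simp [kdeg] at h2 ⊢
  · exact h.1.elim
  · exact h.1.elim

variable [Fintype J] [DecidableEq J]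

theorem Yg_ne {k : Kd Q} (hk : k ≠ kc) : Yg (J := J) R k = Yg R' k :=
  Matrix.ext fun p q => msk_congr (shape_ne hk p q) fun _ => rfl

theorem wts (x : Nb Q w v D → G) (φ : J → G) (γ : G) (y : Sp (Ix Q w v D J) (Ix Q w v D J))
    (hy : y ∈ mono fun μ => ws (wt x φ) μ = γ) :
    lie R a b y ∈ mono fun μ => ws (wt x φ) μ = γ + (x a - x b) := by
  refine vf_mem dL_mem hy ?_
  rintro g μ ν h1 ⟨k, p, q, p', q', rfl, rfl, -, h2⟩
  rw [ws_add, ws_single, wt_gg] at h1 ⊢
  rw [← h1]
  rcases h2 with ⟨rfl, rfl, rfl⟩ | ⟨rfl, rfl, rfl⟩ <;> abel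

open Classical in
theorem diag (γ : G) (ha : blk a < 2) (y : Sp (Ix Q w v D J) (Ix Q w v D J))
    (hy : y ∈ mono fun μ => ws (fun g => if AlG R g then wt bw (0 : J → G) g else 0) μ = γ) :
    lie R a a y = (xi a γ : ℂ) • y := by
  let π : G →+ ℂ := (Int.castAddHom ℂ).comp (xi a)
  have h1 := euler_apply (fun g => π (if AlG R g then wt bw (0 : J → G) g else 0)) (a := π γ)
    (mono_le (fun μ hμ => by rw [← map_ws, hμ]) hy)
  refine Eq.trans ?_ h1
  rw [lie_eq]
  refine congrArg (fun δ => vf δ y) (funext fun g => ?_)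
  rcases gen_cases g with ⟨k, p, q, rfl⟩ | ⟨j, rfl⟩ | ⟨j, rfl⟩
  · rw [dL_gg fun _ _ => ⟨Iff.rfl, Iff.rfl⟩, ad_apply, AlG, ofM_gg]
    rw [ite_sub (z := Yg R k p q) (fun h => by rw [h]) fun h => by rw [h]]
    by_cases h : shape R k p q
    · rw [if_pos h, Yg, msk_pos h, wt_gg]
      simp [π, xi_kw, xi_bw ha]
    · rw [if_neg h, Yg, msk_neg h, map_zero, zero_smul, smul_zero]
  · simp [dL, AlG, ofM]
  · simp [dL, AlG, ofM]

theorem radT (ha : blk a = 0) (hb : blk b = 0) : lie (J := J) radF a b = lie rad a b := by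
  rw [lie_eq, lie_eq]
  refine congrArg vf (funext fun g => ?_)
  rcases gen_cases g with ⟨k, p, q, rfl⟩ | ⟨j, rfl⟩ | ⟨j, rfl⟩
  · have e1 : Yg (J := J) radF k p a = Yg rad k p a :=
      msk_congr (shape_T k (Or.inr ha)) fun _ => rfl
    have e2 : Yg (J := J) radF k b q = Yg rad k b q :=
      msk_congr (shape_T k (Or.inl hb)) fun _ => rfl
    have e3 : ad a b (Yg (J := J) radF k) p q = ad a b (Yg rad k) p q := by
      rw [ad_apply, ad_apply, e1, e2]
    rw [dL, dL, ofM_gg, ofM_gg]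
    by_cases h : blk p = 0 ∨ blk q = 0
    · exact msk_congr (shape_T k h) fun _ => e3
    · have h1 : q ≠ b := fun e => h (Or.inr (e ▸ hb))
      have h2 : p ≠ a := fun e => h (Or.inl (e ▸ ha))
      simp only [msk, ad_apply, if_neg h1, if_neg h2, sub_zero, ite_self]
  · simp only [dL, ofM]
  · simp only [dL, ofM]

theorem onPol (F : MvPolynomial (Ix Q w v D J) ℂ)
    (hF : (pol F : Sp (Ix Q w v D J) (Ix Q w v D J)) ∈ mono (sup E0G)) :
    lie R a b (pol F) = lie R' a b (pol F) := by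
  refine vf_congr (δ := dL R a b) (δ' := dL R' a b) (fun g hg => ?_) hF
  obtain ⟨k, p, q, rfl, -, hk⟩ := e0_cases hg
  have hk' : k ≠ kc := by rcases hk with ⟨ε, rfl⟩ | rfl <;> simp
  rw [dL, dL, ofM_gg, ofM_gg]
  exact msk_congr (shape_ne hk' p q) fun _ => by rw [Yg_ne hk']

theorem Yg_par (k : Kd Q) (p q : Nb Q w v D) :
    Yg (J := J) R k p q ∈ words fun μ => od μ = k.isRight :=
  Yg_mem fun _ => by rw [od_single, gg_isRight]

theorem dG_e0 {g : Ix Q w v D J ⊕ Ix Q w v D J} (hg : E0G g) :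
    dG R g = ∑ a, ∑ b, Yg R kc a b * dL R a b g := by
  obtain ⟨k, p, q, rfl, hs, hk⟩ := e0_cases hg
  have hk' : k ≠ kc := by rcases hk with ⟨ε, rfl⟩ | rfl <;> simp
  have h1 : shape R k p q := (shape_ne hk' p q).1 hs
  have h2 : Phi Q (Yg (J := J) R) k = Yg R k * Yg R kc - Yg R kc * Yg R k := by
    rcases hk with ⟨ε, rfl⟩ | rfl <;> rfl
  have h3 : k.isRight = false := by rcases hk with ⟨ε, rfl⟩ | rfl <;> rfl
  simp only [dG, dL, ofM_gg, msk_pos h1, h2, ad_apply, mul_sub, sum_sub_distrib, mul_ite, mul_zero,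
    sum_ite_eq, mem_univ, if_true, Matrix.sub_apply, Matrix.mul_apply]
  congr 1
  · refine sum_congr rfl fun r _ => ?_
    rw [words_comm (Yg_par k p r) (Yg_par kc r q), h3, Bool.false_and, sg_false, one_smul]
  · rw [sum_comm]
    simp only [sum_ite_eq, mem_univ, if_true]

theorem dpol (F : MvPolynomial (Ix Q w v D J) ℂ)
    (hF : (pol F : Sp (Ix Q w v D J) (Ix Q w v D J)) ∈ mono (sup E0G)) :
    vf (dG R) * mul F - mul F * vf (dG R) =
      ∑ a, ∑ b, Yg R kc a b * (lie R a b * mul F - mul F * lie R a b) := by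
  have h1 : ∀ a b, lie R a b * mul F - mul F * lie R a b =
      ∑ e, mul (pderiv e F) * dL R a b (.inl e) := fun a b =>
    vf_mul (fun g => words_le (fun _ _ => trivial) (dL_par g)) F
  rw [vf_mul fun g => words_le (fun _ _ => trivial) (dG_par g)]
  simp only [h1, mul_sum]
  rw [sum_congr rfl fun a _ => sum_comm, sum_comm]
  refine sum_congr rfl fun e _ => ?_
  by_cases he : E0G (.inl e : Ix Q w v D J ⊕ Ix Q w v D J)
  · simp only [dG_e0 he, mul_sum, ← mul_assoc, mul_comm_words _ (Yg_par kc _ _)]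
  · have h2 := congrFun (dr_eq_zero (.inl e) (mono_le (fun μ hμ => of_not_not fun h => he (hμ _ h))
      hF)) ∅
    have h3 : pderiv e F = 0 := by simpa [dr, pol] using h2
    have h4 : (mul 0 : OpQ Q w v D J) = 0 := map_zero mulA
    simp only [h3, h4, zero_mul, mul_zero, sum_const_zero]

theorem const (F : MvPolynomial (Ix Q w v D J) ℂ) (ψ : G) (n : ℕ) (hn : n < 2) (h0 : F ≠ 0)
    (hF : Homog F ψ) (h : ∀ p q : Nb Q w v D, p ≠ q → vx p = vx q → blk p = n → blk q = n →
      lie rad p q (pol F) = 0) : Const w v D n ψ := by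
  classical
  intro p q hp hq hv
  by_cases hpq : p = q
  · rw [hpq]
  have h1 := LinearMap.congr_fun (brk (J := J) (inv_rad hv (hp.trans hq.symm))
    (inv_rad hv.symm (hq.trans hp.symm))) (pol F)
  have h2 : (pol F : Sp (Ix Q w v D J) (Ix Q w v D J)) ∈ mono fun μ =>
      ws (fun g => if AlG rad g then wt bw (0 : J → G) g else 0) μ = ψ := by
    refine mono_le (fun μ hμ => Eq.trans (sum_congr rfl fun g _ => ?_) hμ.2) hF
    by_cases h3 : μ g = 0
    · rw [h3, zero_smul, zero_smul]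
    · simp only [if_pos (hμ.1 g h3).1]
  rw [if_pos rfl, if_pos rfl, LinearMap.sub_apply, LinearMap.sub_apply, Module.End.mul_apply,
    Module.End.mul_apply, h p q hpq hv hp hq, h q p (Ne.symm hpq) hv.symm hq hp, map_zero,
    map_zero, sub_zero, diag ψ (by omega) _ h2, diag ψ (by omega) _ h2, ← sub_smul, eq_comm,
    smul_eq_zero] at h1
  rcases h1 with h1 | h1
  · exact_mod_cast sub_eq_zero.1 h1
  · exact absurd (by simpa [pol] using congrFun h1 ∅) h0

theorem der (a b : Nb Q w v D) :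
    ∃ dd : Derivation ℂ (MvPolynomial (Ix Q w v D J) ℂ) (MvPolynomial (Ix Q w v D J) ℂ),
      (∀ F, lie (J := J) rad a b (pol F) = pol (dd F)) ∧ ∀ k, k.isLeft → (Ypol k).map dd =
        msk rad (fun k => Ypol k * Matrix.single a b 1 - Matrix.single a b 1 * Ypol k) k := by
  let u : Ix Q w v D J → MvPolynomial (Ix Q w v D J) ℂ := fun e =>
    ofM (msk rad fun k => ad a b (Ypol k)) 0 0 (.inl e)
  let m : MvPolynomial (Ix Q w v D J) ℂ →+ OpQ Q w v D J := mulA.toLinearMap.toAddMonoidHom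
  have hY : ∀ τ, (Ypol (.inl τ)).map m = Yg (J := J) rad (.inl τ) := fun τ =>
    Matrix.ext fun p q => by
      rw [Matrix.map_apply, Ypol, Yg]
      by_cases h : shape rad (.inl τ) p q
      · rw [msk_pos h, msk_pos h]
        rfl
      · rw [msk_neg h, msk_neg h, map_zero]
  have hu : ∀ e, dL rad a b (.inl e) = m (u e) := by
    rintro (⟨τ, p, q⟩ | j)
    · change msk rad (fun k => ad a b (Yg rad k)) (.inl τ) p q =
        m (msk rad (fun k => ad a b (Ypol k)) (.inl τ) p q)
      by_cases h : shape rad (.inl τ) p q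
      · rw [msk_pos h, msk_pos h, map_ad, hY]
      · rw [msk_neg h, msk_neg h, map_zero]
    · exact (map_zero m).symm
  have hd : ∀ F, (∑ e, u e • pderiv e : Derivation ℂ (MvPolynomial (Ix Q w v D J) ℂ)
      (MvPolynomial (Ix Q w v D J) ℂ)) F = ∑ e, pderiv e F * u e := fun F => by
    have := congrFun (map_sum Derivation.coeFnAddMonoidHom (fun e => u e • pderiv (R := ℂ) e)
      univ) F
    refine this.trans ?_
    rw [Finset.sum_apply]
    exact sum_congr rfl fun e _ => mul_comm _ _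
  refine ⟨∑ e, u e • pderiv e, fun F => ?_, fun k hk => Matrix.ext fun p q => ?_⟩
  · have h1 := vf_mul (fun g => words_le (fun _ _ => trivial)
      (dL_par (J := J) (R := rad) (a := a) (b := b) g)) F
    have h2 : (∑ e, mul (pderiv e F) * dL rad a b (.inl e) : OpQ Q w v D J) =
        mul (∑ e, pderiv e F * u e) := by
      refine Eq.trans (sum_congr rfl fun e _ => ?_) (map_sum m _ _).symm
      rw [hu]
      exact (mul_mul _ _).symm
    have h3 := LinearMap.congr_fun (h1.trans h2) one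
    rwa [LinearMap.sub_apply, Module.End.mul_apply, Module.End.mul_apply, vf_one, map_zero,
      sub_zero, mul_one_eq, mul_one_eq, ← hd] at h3
  · obtain ⟨τ, rfl⟩ := Sum.isLeft_iff.1 hk
    rw [Matrix.map_apply]
    by_cases h : shape rad (.inl τ) p q
    · have e : Ypol (J := J) (.inl τ) p q = X (.inl (τ, p, q)) := msk_pos h
      rw [e, hd, sum_eq_single (.inl (τ, p, q)) (fun e _ he => by
        rw [pderiv_X_of_ne he.symm, zero_mul]) (by simp), pderiv_X_self, one_mul]
      rfl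
    · rw [Ypol, msk_neg h, msk_neg h, map_zero]

theorem glob2 (_ : DSqStmt) : Glob2Stmt := fun _ _ _ _ _ _ _ =>
  { val := fun R a b => ⟨dL R a b, rfl, fun g hg => by
      rcases gen_cases g with ⟨k, p, q, rfl⟩ | ⟨j, rfl⟩ | ⟨j, rfl⟩
      · rw [AlG, ofM_gg] at hg
        rw [dL, ofM_gg, msk_neg hg]
      · rfl
      · rfl, dL_mem⟩
    wts := fun _ _ _ => wts
    comm := fun _ hR _ _ h => comm (inv_of hR h)
    brk := fun _ hR _ _ _ _ h h' => brk (inv_of hR h) (inv_of hR h')
    diag := fun _ _ => diag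
    radT := fun _ _ => radT
    onPol := fun _ _ _ _ => onPol
    dpol := fun _ => dpol
    const := const
    der := der }

end Pool.Agent.MP_8be872_ag.H26
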