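import Pool.Agent.MP_8be872_ag.H63.SpecB
import Pool.Agent.MP_8be872_ag.H63.ApiB

/-! The gauge action on the global dg algebra: commutators. -/

namespace Pool.Agent.MP_8be872_ag.H26

open Finset H38 H56 H63 MvPolynomial
open scoped Matrix

section Mat

variable {N A : Type} [Fintype N] [DecidableEq N] [Ring A]

/-- The commutator with a matrix unit. -/
def ad (a b : N) (M : Matrix N N A) : Matrix N N A :=
  M * Matrix.single a b 1 - Matrix.single a b 1 * M

theorem ad_apply (a b : N) (M : Matrix N N A) (p q : N) :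
    ad a b M p q = (if q = b then M p a else 0) - if p = a then M b q else 0 := by
  rw [ad, Matrix.sub_apply]
  congr 1
  · split_ifs with h
    · rw [h, Matrix.mul_single_apply_same, mul_one]
    · exact Matrix.mul_single_apply_of_ne _ _ _ _ _ h _
  · split_ifs with h
    · rw [h, Matrix.single_mul_apply_same, one_mul]
    · exact Matrix.single_mul_apply_of_ne _ _ _ _ _ h _

theorem map_ad {A' : Type} [Ring A'] (β : A →+ A') (a b : N) (M : Matrix N N A) (p q : N) :
    β (ad a b M p q) = ad a b (M.map β) p q := by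
  simp only [ad_apply, map_sub, apply_ite β, map_zero, Matrix.map_apply]

theorem ad_ad (a b c d : N) (M : Matrix N N A) :
    ad c d (ad a b M) - ad a b (ad c d M) =
      (if b = c then ad a d M else 0) - if d = a then ad c b M else 0 := by
  have e : ∀ a b c d : N, (if b = c then ad a d M else 0) =
      M * (Matrix.single a b 1 * Matrix.single c d 1) -
        Matrix.single a b 1 * Matrix.single c d 1 * M := by
    intro a b c d
    split_ifs with h
    · rw [h, Matrix.single_mul_single_same, mul_one, ad]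
    · rw [Matrix.single_mul_single_of_ne _ _ _ _ h, mul_zero, zero_mul, sub_zero]
  rw [e, e]
  simp only [ad]
  noncomm_ring

omit [DecidableEq N] in
theorem commute_Phi {Q : Quiv} {Z : Matrix N N A} {Y : Kd Q → Matrix N N A}
    (h : ∀ k, Commute Z (Y k)) (k : Kd Q) : Commute Z (Phi Q Y k) := by
  rcases k with (ε | _ | _) | (ε | _ | _) <;> simp only [Phi] <;>
    repeat' with_reducible first
      | exact h _
      | apply Commute.sub_right
      | apply Commute.add_right
      | apply Commute.mul_right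
      | apply Commute.neg_right
      | refine Commute.sum_right _ _ _ fun _ _ => ?_

theorem commute_iff (L : A) (a b : N) (M : Matrix N N A) :
    Commute (Matrix.diagonal (fun _ => L) + Matrix.single a b 1) M ↔
      ∀ p q, L * M p q - M p q * L = ad a b M p q := by
  rw [commute_iff_eq, add_mul, mul_add, ← Matrix.ext_iff]
  refine forall₂_congr fun p q => ?_
  rw [ad, Matrix.add_apply, Matrix.add_apply, Matrix.diagonal_mul, Matrix.mul_diagonal,
    Matrix.sub_apply, sub_eq_sub_iff_add_eq_add, add_comm (M p q * L)]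

/-- The graded commutator. -/
def cm [Algebra ℂ A] (L : A) (s : ℂ) : A →+ A where
  toFun m := L * m - s • (m * L)
  map_zero' := by simp
  map_add' m m' := by
    rw [mul_add, add_mul, smul_add]
    abel

end Mat

variable {Q : Quiv} {w v D : Fin Q.n → ℕ} {J : Type}
  {R R' : Nb Q w v D → Nb Q w v D → Prop} {a b c d : Nb Q w v D}

theorem ofM_gg {A : Type} (M : Kd Q → Nb Q w v D → Nb Q w v D → A) (t e : J → A) (k : Kd Q)
    (p q : Nb Q w v D) : ofM M t e (gg k p q) = M k p q := by
  cases k <;> rfl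

theorem gg_isRight (k : Kd Q) (p q : Nb Q w v D) :
    (gg (J := J) k p q).isRight = k.isRight := by
  cases k <;> rfl

theorem gen_cases (g : Ix Q w v D J ⊕ Ix Q w v D J) :
    (∃ k p q, g = gg k p q) ∨ (∃ j, g = .inl (.inr j)) ∨ ∃ j, g = .inr (.inr j) := by
  rcases g with (⟨τ, p, q⟩ | j) | (⟨τ, p, q⟩ | j)
  · exact Or.inl ⟨.inl τ, p, q, rfl⟩
  · exact Or.inr (Or.inl ⟨j, rfl⟩)
  · exact Or.inl ⟨.inr τ, p, q, rfl⟩
  · exact Or.inr (Or.inr ⟨j, rfl⟩)

theorem msk_pos {A : Type} [Zero A] {M : Kd Q → Nb Q w v D → Nb Q w v D → A} {k : Kd Q}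
    {p q : Nb Q w v D} (h : shape R k p q) : msk R M k p q = M k p q := if_pos h

theorem msk_neg {A : Type} [Zero A] {M : Kd Q → Nb Q w v D → Nb Q w v D → A} {k : Kd Q}
    {p q : Nb Q w v D} (h : ¬ shape R k p q) : msk R M k p q = 0 := if_neg h

theorem msk_congr {A : Type} [Zero A] {M M' : Kd Q → Nb Q w v D → Nb Q w v D → A} {k : Kd Q}
    {p q p' q' : Nb Q w v D} (h : shape R k p q ↔ shape R' k p' q')
    (h' : shape R k p q → M k p q = M' k p' q') : msk R M k p q = msk R' M' k p' q' := by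
  by_cases h1 : shape R k p q
  · rw [msk_pos h1, msk_pos (h.1 h1), h' h1]
  · rw [msk_neg h1, msk_neg (mt h.2 h1)]

theorem shape_ne {k : Kd Q} (hk : k ≠ kc) (p q : Nb Q w v D) : shape R k p q ↔ shape R' k p q := by
  rcases k with (ε | _ | _) | (ε | _ | _)
  exacts [Iff.rfl, Iff.rfl, Iff.rfl, Iff.rfl, Iff.rfl, absurd rfl hk]

theorem radF_iff {p q : Nb Q w v D} (h : blk p = 0 ∨ blk q = 0) : radF p q ↔ rad p q := by
  refine or_iff_left ?_
  rintro ⟨a, b, rfl, rfl, -⟩
  simp [blk] at h

theorem shape_T (k : Kd Q) {p q : Nb Q w v D} (h : blk p = 0 ∨ blk q = 0) :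
    shape radF k p q ↔ shape rad k p q := by
  by_cases hk : k = kc
  · subst hk
    exact and_congr_right fun _ => radF_iff h
  · exact shape_ne hk p q

/-- The mask does not distinguish `a` from `b`. -/
def Inv (R : Nb Q w v D → Nb Q w v D → Prop) (a b : Nb Q w v D) : Prop :=
  ∀ k p, (shape R k p a ↔ shape R k p b) ∧ (shape R k a p ↔ shape R k b p)

theorem Inv.trans (h : Inv R a b) (h' : Inv R b c) : Inv R a c :=
  fun k p => ⟨(h k p).1.trans (h' k p).1, (h k p).2.trans (h' k p).2⟩

theorem inv_rad (h1 : vx a = vx b) (h2 : blk a = blk b) : Inv rad a b := by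
  intro k p
  rcases k with (⟨_ | e, s⟩ | _ | _) | (⟨_ | e, s⟩ | _ | _) <;>
    simp only [shape, arrow, rad, Sum.elim_inl, Sum.elim_inr, id, h1, h2, and_self]

theorem inv_of (hR : R = rad ∨ R = radF) (h : LevP Q w v D R a b) : Inv R a b := by
  obtain ⟨h1, h2, h3⟩ := h
  rcases hR with rfl | rfl
  · exact inv_rad h1 h2
  rcases h3 with h3 | ⟨-, h3⟩
  · intro k p
    rw [shape_T k (Or.inr h3), shape_T k (Or.inr (h2 ▸ h3)), shape_T k (Or.inl h3),
      shape_T k (Or.inl (h2 ▸ h3))]
    exact inv_rad h1 h2 k p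
  · rw [h3]
    exact inv_rad h1 h2

theorem msk_ad {A : Type} [Ring A] (h : Inv R a b)
    (M : Kd Q → Matrix (Nb Q w v D) (Nb Q w v D) A) (k : Kd Q) (p q : Nb Q w v D) :
    msk R (fun k => ad a b (M k)) k p q = ad a b (msk R M k) p q := by
  rw [ad_apply]
  by_cases h1 : shape R k p q
  · rw [msk_pos h1, ad_apply]
    congr 1 <;> split_ifs with h2
    · exact (msk_pos ((h k p).1.2 (h2 ▸ h1))).symm
    · rfl
    · exact (msk_pos ((h k q).2.1 (h2 ▸ h1))).symm
    · rfl
  · have e1 : (if q = b then msk R M k p a else 0) = 0 :=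
      ite_eq_right_iff.2 fun h2 => msk_neg fun h3 => h1 (h2 ▸ (h k p).1.1 h3)
    have e2 : (if p = a then msk R M k b q else 0) = 0 :=
      ite_eq_right_iff.2 fun h2 => msk_neg fun h3 => h1 (h2 ▸ (h k q).2.2 h3)
    rw [msk_neg h1, e1, e2, sub_zero]

variable [Fintype J] [DecidableEq J]

/-- The values of `lie`. -/
noncomputable def dL (R : Nb Q w v D → Nb Q w v D → Prop) (a b : Nb Q w v D) :
    Ix Q w v D J ⊕ Ix Q w v D J → OpQ Q w v D J := ofM (msk R fun k => ad a b (Yg R k)) 0 0

theorem lie_eq : lie (J := J) R a b = vf (dL R a b) := rfl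

theorem Yg_mem {P : (Ix Q w v D J ⊕ Ix Q w v D J → ℕ) → Prop} {k : Kd Q} {p q : Nb Q w v D}
    (h : shape R k p q → P (Pi.single (gg k p q) 1)) : Yg (J := J) R k p q ∈ words P := by
  by_cases h1 : shape R k p q
  · rw [Yg, msk_pos h1]
    exact gn_mem_words (h h1)
  · rw [Yg, msk_neg h1]
    exact Submodule.zero_mem _

theorem dL_mem (g : Ix Q w v D J ⊕ Ix Q w v D J) : dL R a b g ∈ words fun μ => ∃ k p q p' q',
    g = gg k p q ∧ μ = Pi.single (gg k p' q') 1 ∧ shape R k p' q' ∧
      ((p' = p ∧ q = b ∧ q' = a) ∨ (p = a ∧ p' = b ∧ q' = q)) := by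
  rcases gen_cases g with ⟨k, p, q, rfl⟩ | ⟨j, rfl⟩ | ⟨j, rfl⟩
  · rw [dL, ofM_gg]
    by_cases h1 : shape R k p q
    · rw [msk_pos h1, ad_apply]
      refine Submodule.sub_mem _ ?_ ?_ <;> split_ifs with h2
      · exact Yg_mem fun h => ⟨k, p, q, p, a, rfl, rfl, h, Or.inl ⟨rfl, h2, rfl⟩⟩
      · exact Submodule.zero_mem _
      · exact Yg_mem fun h => ⟨k, p, q, b, q, rfl, rfl, h, Or.inr ⟨h2, rfl, rfl⟩⟩
      · exact Submodule.zero_mem _
    · rw [msk_neg h1]
      exact Submodule.zero_mem _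
  · exact Submodule.zero_mem _
  · exact Submodule.zero_mem _

theorem dL_par (g : Ix Q w v D J ⊕ Ix Q w v D J) :
    dL R a b g ∈ words fun μ => od μ = xor g.isRight false := by
  refine words_le ?_ (dL_mem g)
  rintro μ ⟨k, p, q, p', q', rfl, rfl, -⟩
  rw [od_single, gg_isRight, gg_isRight, Bool.xor_false]

theorem dL_gg (h : Inv R a b) (k : Kd Q) (p q : Nb Q w v D) :
    dL (J := J) R a b (gg k p q) = ad a b (Yg R k) p q := by
  have e : msk R (Yg (J := J) R) k = Yg R k := by
    refine Matrix.ext fun p q => ?_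
    by_cases h1 : shape R k p q
    · exact msk_pos h1
    · rw [msk_neg h1, Yg, msk_neg h1]
  rw [dL, ofM_gg, msk_ad h, e]

/-- The value of a derivation on a matrix of generators. -/
theorem vf_Yg {M : Kd Q → Nb Q w v D → Nb Q w v D → OpQ Q w v D J} {s : Bool}
    (h : ∀ g, ofM (msk R M) (0 : J → _) 0 g ∈ words fun μ => od μ = xor g.isRight s) (k : Kd Q) :
    (Yg R k).map (cm (vf (ofM (msk R M) (0 : J → _) 0)) (sg (s && k.isRight))) = msk R M k := by
  refine Matrix.ext fun p q => ?_
  rw [Matrix.map_apply]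
  by_cases h1 : shape R k p q
  · have h2 := vf_gn h (gg k p q)
    rw [gg_isRight, ofM_gg] at h2
    rw [Yg, msk_pos h1]
    exact h2
  · rw [Yg, msk_neg h1, msk_neg h1, map_zero]

theorem lie_Yg (h : Inv R a b) (k : Kd Q) :
    (Yg (J := J) R k).map (cm (lie R a b) 1) = ad a b (Yg R k) := by
  have h1 := vf_Yg (dL_par (J := J) (R := R) (a := a) (b := b)) k
  rw [Bool.false_and, sg_false] at h1
  refine h1.trans ?_
  refine Matrix.ext fun p q => ?_
  rw [← dL_gg h, dL, ofM_gg]

theorem lie_Phi (h : Inv R a b) (k : Kd Q) (p q : Nb Q w v D) :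
    lie R a b * Phi Q (Yg (J := J) R) k p q - Phi Q (Yg R) k p q * lie R a b =
      ad a b (Phi Q (Yg R) k) p q := by
  refine (commute_iff _ a b _).1 (commute_Phi (fun k => (commute_iff _ a b _).2 fun p q => ?_) k)
    p q
  rw [← lie_Yg h k, ← one_smul ℂ (Yg R k p q * lie R a b)]
  rfl

/-- Matrices of a given parity. -/
def Par (s : Bool) (M : Matrix (Nb Q w v D) (Nb Q w v D) (OpQ Q w v D J)) : Prop :=
  ∀ p q, M p q ∈ words fun μ => od μ = s

section Par

variable {s s' : Bool} {M M' : Matrix (Nb Q w v D) (Nb Q w v D) (OpQ Q w v D J)}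

theorem Par.add (h : Par s M) (h' : Par s M') : Par s (M + M') :=
  fun p q => Submodule.add_mem _ (h p q) (h' p q)

theorem Par.sub (h : Par s M) (h' : Par s M') : Par s (M - M') :=
  fun p q => Submodule.sub_mem _ (h p q) (h' p q)

theorem Par.neg (h : Par s M) : Par s (-M) := fun p q => Submodule.neg_mem _ (h p q)

theorem Par.sum {I : Type} [Fintype I]
    {F : I → Matrix (Nb Q w v D) (Nb Q w v D) (OpQ Q w v D J)} (h : ∀ i, Par s (F i)) :
    Par s (∑ i, F i) := fun p q => by
  rw [Matrix.sum_apply]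
  exact Submodule.sum_mem _ fun i _ => h i p q

theorem par_mul (k k' : Kd Q) (h : xor k.isRight k'.isRight = s) :
    Par s (Yg (J := J) R k * Yg R k') := fun p q => by
  rw [Matrix.mul_apply]
  refine Submodule.sum_mem _ fun r _ => mul_mem_words (P := fun μ => od μ = k.isRight)
    (P' := fun μ => od μ = k'.isRight) (Yg_mem fun _ => ?_) (Yg_mem fun _ => ?_)
    fun μ ν h1 h2 => ?_
  · rw [od_single, gg_isRight]
  · rw [od_single, gg_isRight]
  · rw [od_add, h1, h2, h]

end Par

theorem Phi_par (k : Kd Q) : Par (xor k.isRight true) (Phi Q (Yg (J := J) R) k) := by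
  rcases k with (ε | _ | _) | (ε | _ | _) <;> simp only [Phi] <;>
    repeat' first
      | with_reducible apply Par.sub
      | with_reducible apply Par.add
      | with_reducible apply Par.neg
      | with_reducible refine Par.sum fun _ => ?_
      | exact par_mul _ _ rfl

theorem dG_par (g : Ix Q w v D J ⊕ Ix Q w v D J) :
    dG R g ∈ words fun μ => od μ = xor g.isRight true := by
  rcases gen_cases g with ⟨k, p, q, rfl⟩ | ⟨j, rfl⟩ | ⟨j, rfl⟩
  · rw [dG, ofM_gg, gg_isRight]
    by_cases h1 : shape R k p q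
    · rw [msk_pos h1]
      exact Phi_par k p q
    · rw [msk_neg h1]
      exact Submodule.zero_mem _
  · exact Submodule.zero_mem _
  · exact Submodule.zero_mem _

theorem vf_zero {E O : Type} [Fintype E] [Fintype O] [DecidableEq E] [DecidableEq O] :
    vf (0 : E ⊕ O → Module.End ℂ (Sp E O)) = 0 := by
  simp [vf]

theorem comm (h : Inv R a b) : lie (J := J) R a b * vf (dG R) = vf (dG R) * lie R a b := by
  have h1 := vf_br_vf (dL_par (J := J) (R := R) (a := a) (b := b)) (dG_par (R := R))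
  simp only [Bool.false_and, sg_false, one_smul, Bool.xor_false, ← lie_eq] at h1
  rw [← sub_eq_zero, h1, ← vf_zero]
  refine congrArg vf (funext fun g => ?_)
  rcases gen_cases g with ⟨k, p, q, rfl⟩ | ⟨j, rfl⟩ | ⟨j, rfl⟩
  · have h2 := map_ad (cm (vf (dG (J := J) R)) (sg (true && k.isRight))) a b (Yg R k) p q
    rw [dG, vf_Yg dG_par, ← msk_ad h] at h2
    rw [Pi.zero_apply, sub_eq_zero, dL_gg h, gg_isRight]
    refine Eq.trans ?_ h2.symm
    rw [dG, ofM_gg]
    by_cases h3 : shape R k p q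
    · rw [msk_pos h3, msk_pos h3]
      exact lie_Phi h k p q
    · rw [msk_neg h3, msk_neg h3, mul_zero, zero_mul, sub_zero]
  · simp [dG, dL, ofM]
  · simp [dG, dL, ofM]

theorem brk (h : Inv R a b) (h' : Inv R c d) :
    lie (J := J) R a b * lie R c d - lie R c d * lie R a b =
      (if b = c then lie R a d else 0) - if d = a then lie R c b else 0 := by
  have h1 := vf_br_vf (dL_par (J := J) (R := R) (a := a) (b := b))
    (dL_par (R := R) (a := c) (b := d))
  simp only [Bool.false_and, sg_false, one_smul, ← lie_eq] at h1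
  have e : ∀ a b c d : Nb Q w v D, (if b = c then lie (J := J) R a d else 0) =
      vf (if b = c then dL R a d else 0) := by
    intro a b c d
    split_ifs
    · rfl
    · exact vf_zero.symm
  rw [h1, e, e, ← vf_sub]
  refine congrArg vf (funext fun g => ?_)
  rcases gen_cases g with ⟨k, p, q, rfl⟩ | ⟨j, rfl⟩ | ⟨j, rfl⟩
  · have h2 := map_ad (cm (lie (J := J) R a b) 1) c d (Yg R k) p q
    have h3 := map_ad (cm (lie (J := J) R c d) 1) a b (Yg R k) p q
    rw [lie_Yg h] at h2
    rw [lie_Yg h'] at h3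
    have h4 := congrFun (congrFun (ad_ad a b c d (Yg (J := J) R k)) p) q
    rw [Matrix.sub_apply, ← h2, ← h3] at h4
    rw [dL_gg h, dL_gg h', ← one_smul ℂ (_ * lie R a b), ← one_smul ℂ (_ * lie R c d)]
    refine h4.trans ?_
    rw [Matrix.sub_apply, Pi.sub_apply]
    congr 1 <;> split_ifs with h5
    · rw [dL_gg (h.trans (h5 ▸ h'))]
    · rfl
    · rw [dL_gg (h'.trans (h5 ▸ h))]
    · rfl
  · split_ifs <;> simp [dL, ofM]
  · split_ifs <;> simp [dL, ofM]

end Pool.Agent.MP_8be872_ag.H26
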